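import Pool.Agent.Q261.HEA.Gb

/-! Project HEA, job GCO: consistency of the finite volume measures. -/

set_option autoImplicit false

namespace Pool.Agent.Q261.HEA

open MeasureTheory Filter Topology Set Pool.Agent.Q291.HEA
open scoped Classical

/-- **GCO** -/
theorem t_GCO : P_GCO := by
  intro V E _ l r h K Λ Δ hs σ A hA
  refine ⟨fun η => ⟨fv_nonneg K Λ η A, fv_le K Λ η A⟩, ?_⟩
  have h1 := cons hs h K σ (A.indicator (fun _ => (1 : ℝ)))
  rw [← fv_eq K Δ σ A] at h1
  rw [h1, Finset.sum_div]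
  refine Finset.sum_congr rfl fun η _ => ?_
  rw [fv_eq K Λ (glue Δ η σ) A]
  unfold wf Zf
  ring

end Pool.Agent.Q261.HEA
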