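import Pool.Agent.Q261.HEA.Gb
import Pool.Agent.Q261.HEA.GCO

/-! Project HEA, job GEX: existence of a Gibbs state. -/

set_option autoImplicit false

namespace Pool.Agent.Q261.HEA

open MeasureTheory Filter Topology Set Pool.Agent.Q291.HEA
open scoped Classical

variable {V E : Type} {l r : E → V}

/-- the finite volume measure -/
noncomputable def fvm (l r : E → V) (K : E → ℝ) (Λ : Finset V) (σ : V → Bool) :
    Measure (V → Bool) :=
  ∑ η : Λ → Bool, ENNReal.ofReal (wf l r K Λ η σ) • Measure.dirac (glue Λ η σ)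

lemma fvm_prob (K : E → ℝ) (Λ : Finset V) (σ : V → Bool) :
    IsProbabilityMeasure (fvm l r K Λ σ) := by
  constructor
  unfold fvm
  rw [Measure.finsetSum_apply]
  have h1 : ∀ η : Λ → Bool, (ENNReal.ofReal (wf l r K Λ η σ) •
      Measure.dirac (glue Λ η σ)) (Set.univ : Set (V → Bool)) =
      ENNReal.ofReal (wf l r K Λ η σ) := by
    intro η
    rw [Measure.smul_apply, measure_univ, smul_eq_mul, mul_one]
  rw [Finset.sum_congr rfl fun η _ => h1 η, ← ENNReal.ofReal_sum_of_nonneg
    (fun η _ => (wf_pos K Λ η σ).le), wf_sum, ENNReal.ofReal_one]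

lemma fvm_int [Countable V] (K : E → ℝ) (Λ : Finset V) (σ : V → Bool) (g : (V → Bool) → ℝ) :
    ∫ s, g s ∂(fvm l r K Λ σ) = ∑ η : Λ → Bool, wf l r K Λ η σ * g (glue Λ η σ) := by
  unfold fvm
  rw [integral_finsetSum_measure]
  · refine Finset.sum_congr rfl fun η _ => ?_
    rw [integral_smul_measure, integral_dirac, ENNReal.toReal_ofReal (wf_pos K Λ η σ).le,
      smul_eq_mul]
  · intro η _
    refine Integrable.smul_measure ?_ ENNReal.ofReal_ne_top
    exact integrable_dirac (by simp)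

/-- **GEX** -/
theorem gex_main [Countable V] (h : LF l r) (K : E → ℝ) (Λ : ℕ → Finset V) (hmono : Monotone Λ)
    (hex : ∀ v, ∃ n, v ∈ Λ n) (a : V) (δ : ℝ) (σ : ℕ → V → Bool)
    (hδ : ∀ᶠ n in atTop, δ ≤ finiteVolume l r K (Λ n) (σ n) {η | η a = true}) :
    ∃ π, IsGibbs l r K π ∧ δ ≤ π.real {η | η a = true} := by
  obtain ⟨P, hP⟩ : ∃ P : ℕ → ProbabilityMeasure (V → Bool),
      ∀ n, (P n : Measure (V → Bool)) = fvm l r K (Λ n) (σ n) :=
    ⟨fun n => ⟨fvm l r K (Λ n) (σ n), fvm_prob K (Λ n) (σ n)⟩, fun n => rfl⟩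
  obtain ⟨π, -, hπ⟩ := isCompact_univ.ultrafilter_le_nhds ((Ultrafilter.of (atTop : Filter ℕ)).map P)
    (by simp)
  have hT : Tendsto P (Ultrafilter.of (atTop : Filter ℕ)) (𝓝 π) := hπ
  have hU : ((Ultrafilter.of (atTop : Filter ℕ) : Ultrafilter ℕ) : Filter ℕ) ≤ atTop :=
    Ultrafilter.of_le _
  have hlim : ∀ g : (V → Bool) → ℝ, Continuous g →
      Tendsto (fun n => ∑ η : Λ n → Bool, wf l r K (Λ n) η (σ n) * g (glue (Λ n) η (σ n)))
        (Ultrafilter.of (atTop : Filter ℕ)) (𝓝 (∫ s, g s ∂(π : Measure (V → Bool)))) := by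
    intro g hg
    have h1 := ProbabilityMeasure.tendsto_iff_forall_integral_tendsto.1 hT
      (BoundedContinuousFunction.mkOfCompact ⟨g, hg⟩)
    refine h1.congr fun n => ?_
    rw [hP n]
    exact fvm_int K (Λ n) (σ n) g
  have hclo : ∀ A : Set (V → Bool), IsClopen A →
      Tendsto (fun n => finiteVolume l r K (Λ n) (σ n) A)
        (Ultrafilter.of (atTop : Filter ℕ)) (𝓝 ((π : Measure (V → Bool)).real A)) := by
    intro A hA
    have h1 := hlim (A.indicator (fun _ => (1 : ℝ))) (IsClopen.continuous_indicator hA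
      continuous_const)
    have h2 : ∫ s, A.indicator (fun _ => (1 : ℝ)) s ∂(π : Measure (V → Bool)) =
        (π : Measure (V → Bool)).real A := integral_indicator_one hA.isOpen.measurableSet
    rw [h2] at h1
    refine h1.congr fun n => ?_
    rw [fv_eq]
  refine ⟨π, ⟨inferInstance, fun Γ A hA => ?_⟩, ?_⟩
  · refine dlr_of_cyl h K Γ _ (fun C hC => ?_) hA
    have hCc := cyl_clopen hC
    have h1 := hlim _ (cont_fv h K Γ hCc)
    have h2 := hclo C hCc
    refine tendsto_nhds_unique_of_eventuallyEq h2 h1 ?_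
    have hsub : ∃ m, ∀ n, m ≤ n → Γ ⊆ Λ n := by
      have : ∀ t : Finset V, ∃ m, ∀ n, m ≤ n → t ⊆ Λ n := by
        intro t
        induction t using Finset.induction_on with
        | empty => exact ⟨0, fun n _ => Finset.empty_subset _⟩
        | insert b t _ ih =>
          obtain ⟨m, hm⟩ := ih
          obtain ⟨k, hk⟩ := hex b
          refine ⟨max m k, fun n hn v hv => ?_⟩
          rcases Finset.mem_insert.1 hv with rfl | hv
          · exact hmono ((le_max_right m k).trans hn) hk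
          · exact hm n ((le_max_left m k).trans hn) hv
      exact this Γ
    obtain ⟨m, hm⟩ := hsub
    refine hU (Filter.mem_of_superset (Filter.Ici_mem_atTop m) fun n hn => ?_)
    have h3 := cons (hm n hn) h K (σ n) (C.indicator (fun _ => (1 : ℝ)))
    show finiteVolume l r K (Λ n) (σ n) C = ∑ η : Λ n → Bool, wf l r K (Λ n) η (σ n) *
      finiteVolume l r K Γ (glue (Λ n) η (σ n)) C
    rw [fv_eq, h3]
    exact Finset.sum_congr rfl fun η _ => by rw [fv_eq]
  · have hA : IsClopen {η : V → Bool | η a = true} :=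
      (isClopen_discrete ({true} : Set Bool)).preimage (continuous_apply a)
    exact ge_of_tendsto (hclo _ hA) (hU hδ)

/-- **GEX** -/
theorem t_GEX : P_GCO → P_GEX := by
  intro _ V E _ l r h K Λ hmono hex a δ σ hδ
  exact gex_main h K Λ hmono hex a δ σ hδ

end Pool.Agent.Q261.HEA
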