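import Pool.Agent.Q261.HEA.Gb

/-! Project HEA, job GFL: the global spin flip of a Gibbs state is a Gibbs state. -/

set_option autoImplicit false

namespace Pool.Agent.Q261.HEA

open MeasureTheory Filter Topology Set Pool.Agent.Q291.HEA
open scoped Classical

variable {V E : Type} {l r : E → V}

/-- the global spin flip -/
def flp (η : V → Bool) (v : V) : Bool := !(η v)

lemma meas_flp : Measurable (flp : (V → Bool) → V → Bool) :=
  measurable_pi_lambda _ fun v => (measurable_of_finite (fun b : Bool => !b)).comp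
    (measurable_pi_apply v)

lemma sgn_not (b : Bool) : sgn (!b) = - sgn b := by
  cases b <;> simp [sgn]

lemma energy_flp (K : E → ℝ) (Λ : Finset V) (σ : V → Bool) :
    energy l r K Λ (flp σ) = energy l r K Λ σ := by
  unfold energy
  refine finsum_mem_congr rfl fun b _ => ?_
  show K b * (sgn (!(σ (l b))) * sgn (!(σ (r b)))) = _
  rw [sgn_not, sgn_not]
  ring

lemma glue_flp {Λ : Finset V} (η : Λ → Bool) (σ : V → Bool) :
    glue Λ (fun v => !(η v)) (flp σ) = flp (glue Λ η σ) := by
  funext v
  by_cases hv : v ∈ Λ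
  · rw [glue_mem _ _ hv]
    show (!(η ⟨v, hv⟩)) = !(glue Λ η σ v)
    rw [glue_mem _ _ hv]
  · rw [glue_not _ _ hv]
    show (!(σ v)) = !(glue Λ η σ v)
    rw [glue_not _ _ hv]

lemma fv_flp (K : E → ℝ) (Λ : Finset V) (σ : V → Bool) (A : Set (V → Bool)) :
    finiteVolume l r K Λ (flp σ) A = finiteVolume l r K Λ σ (flp ⁻¹' A) := by
  have hinv : Function.Involutive (fun (η : Λ → Bool) v => !(η v)) := fun η => by
    funext v
    simp
  unfold finiteVolume
  congr 1
  · symm
    refine Fintype.sum_equiv (Function.Involutive.toPerm _ hinv) _ _ fun η => ?_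
    show _ = Real.exp (energy l r K Λ (glue Λ (fun v => !(η v)) (flp σ))) *
      A.indicator (fun _ => (1 : ℝ)) (glue Λ (fun v => !(η v)) (flp σ))
    rw [glue_flp, energy_flp]
    rfl
  · symm
    refine Fintype.sum_equiv (Function.Involutive.toPerm _ hinv) _ _ fun η => ?_
    show _ = Real.exp (energy l r K Λ (glue Λ (fun v => !(η v)) (flp σ)))
    rw [glue_flp, energy_flp]

/-- **GFL** -/
theorem t_GFL : P_GFL := by
  intro V E _ l r h K π hπ
  have hp := hπ.1
  refine ⟨Measure.isProbabilityMeasure_map (meas_flp (V := V)).aemeasurable, fun Λ A hA => ?_⟩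
  show (π.map flp).real A = ∫ σ, finiteVolume l r K Λ σ A ∂(π.map flp)
  rw [map_measureReal_apply meas_flp hA, integral_map meas_flp.aemeasurable
    (meas_fv h K Λ hA).aestronglyMeasurable, hπ.2 Λ _ (meas_flp hA)]
  refine integral_congr_ae (Filter.Eventually.of_forall fun σ => ?_)
  exact (fv_flp K Λ σ A).symm

end Pool.Agent.Q261.HEA
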