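import Pool.Agent.Q261.HEA.Gb

/-! Project HEA, job GUN: uniqueness of the Gibbs state. -/

set_option autoImplicit false

namespace Pool.Agent.Q261.HEA

open MeasureTheory Filter Topology Set Pool.Agent.Q291.HEA
open scoped Classical

/-- **GUN** -/
theorem t_GUN : P_GUN := by
  intro V E _ l r h K Λ hmono hex H π π' hπ hπ'
  have hp := hπ.1
  have hp' := hπ'.1
  refine ext_cyl fun A hA => ?_
  have hAm : MeasurableSet A := MeasurableSet.of_mem_measurableCylinders hA
  obtain ⟨s, S, hS, rfl⟩ := (mem_measurableCylinders _).1 hA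
  have hsub : ∃ m, ∀ v ∈ s, v ∈ Λ m := by
    have : ∀ t : Finset V, ∃ m, ∀ v ∈ t, v ∈ Λ m := by
      intro t
      induction t using Finset.induction_on with
      | empty => exact ⟨0, fun v hv => absurd hv (Finset.notMem_empty v)⟩
      | insert a t _ ih =>
        obtain ⟨m, hm⟩ := ih
        obtain ⟨n, hn⟩ := hex a
        refine ⟨max m n, fun v hv => ?_⟩
        rcases Finset.mem_insert.1 hv with rfl | hv
        · exact hmono (le_max_right m n) hn
        · exact hmono (le_max_left m n) (hm v hv)
    exact this s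
  obtain ⟨m, hm⟩ := hsub
  have hloc : ∀ η η' : V → Bool, (∀ v ∈ Λ m, η v = η' v) →
      (η ∈ cylinder s S ↔ η' ∈ cylinder s S) := by
    intro η η' heq
    rw [mem_cylinder, mem_cylinder]
    have : s.restrict η = s.restrict η' := by
      funext v
      exact heq v (hm v v.2)
    rw [this]
  have key : ∀ ε : ℝ, 0 < ε → |π.real (cylinder s S) - π'.real (cylinder s S)| ≤ 2 * ε := by
    intro ε hε
    obtain ⟨n, hn⟩ := H m (cylinder s S) hAm hloc ε hε
    have hb : ∀ (ρ : Measure (V → Bool)), IsGibbs l r K ρ →
        |ρ.real (cylinder s S) - finiteVolume l r K (Λ n) (fun _ => true) (cylinder s S)| ≤ ε := by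
      intro ρ hρ
      have hq := hρ.1
      rw [hρ.2 (Λ n) _ hAm]
      have h1 : ∫ σ, finiteVolume l r K (Λ n) σ (cylinder s S) ∂ρ -
          finiteVolume l r K (Λ n) (fun _ => true) (cylinder s S) =
          ∫ σ, (finiteVolume l r K (Λ n) σ (cylinder s S) -
            finiteVolume l r K (Λ n) (fun _ => true) (cylinder s S)) ∂ρ := by
        rw [integral_sub (int_fv h K (Λ n) hAm ρ) (integrable_const _), integral_const]
        simp
      rw [h1]
      have h2 := norm_integral_le_of_norm_le_const (μ := ρ) (C := ε)
        (f := fun σ => finiteVolume l r K (Λ n) σ (cylinder s S) -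
            finiteVolume l r K (Λ n) (fun _ => true) (cylinder s S))
        (Filter.Eventually.of_forall fun σ => by
          rw [Real.norm_eq_abs]
          exact hn σ _)
      rw [Real.norm_eq_abs] at h2
      simpa using h2
    have h1 := hb π hπ
    have h2 := hb π' hπ'
    rw [abs_le] at h1 h2 ⊢
    constructor <;> linarith [h1.1, h1.2, h2.1, h2.2]
  have h0 : |π.real (cylinder s S) - π'.real (cylinder s S)| ≤ 0 := by
    refine le_of_forall_pos_le_add fun ε hε => ?_
    have := key (ε / 2) (by linarith)
    linarith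
  exact sub_eq_zero.1 (abs_eq_zero.1 (le_antisymm h0 (abs_nonneg _)))

end Pool.Agent.Q261.HEA
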