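import Mathlib
import Pool.Agent.Q291.HEA.Stm3

/-!
# Project HEA, job GEXI: existence of ground states
-/

set_option autoImplicit false

namespace Pool.Agent.Q261.HEA.GEXI

open MeasureTheory Filter Topology Set Pool.Agent.Q291.HEA

variable {V E : Type} (l r : E → V)

/-- the bonds with an end in `D` -/
lemma fin_nb {l r : E → V} (hLF : LF l r) {D : Set V} (hD : D.Finite) :
    {b | l b ∈ D ∨ r b ∈ D}.Finite := by
  refine (hD.biUnion fun v _ => hLF v).subset ?_
  rintro b (hb | hb)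
  · exact Set.mem_biUnion hb (Or.inl rfl)
  · exact Set.mem_biUnion hb (Or.inr rfl)

/-- the difference at a bond -/
noncomputable def df (K : E → ℝ) (σ σ' : V → Bool) (b : E) : ℝ :=
  K b * (sgn (σ (l b)) * sgn (σ (r b)) - sgn (σ' (l b)) * sgn (σ' (r b)))

lemma df_zero {K : E → ℝ} {σ σ' : V → Bool} {b : E} (h1 : σ' (l b) = σ (l b))
    (h2 : σ' (r b) = σ (r b)) : df l r K σ σ' b = 0 := by
  unfold df
  rw [h1, h2, sub_self, mul_zero]

lemma finsum_df {l r : E → V} (hLF : LF l r) (K : E → ℝ) {σ σ' : V → Bool} (Λ : Set V)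
    (hΛ : Λ.Finite) (h : ∀ v, v ∉ Λ → σ' v = σ v) :
    ∑ᶠ b, df l r K σ σ' b = ∑ b ∈ (fin_nb hLF hΛ).toFinset, df l r K σ σ' b := by
  refine finsum_eq_sum_of_support_subset _ ?_
  intro b hb
  rw [Set.Finite.coe_toFinset]
  by_contra hcon
  rw [Set.mem_setOf_eq, not_or] at hcon
  exact hb (df_zero l r (h _ hcon.1) (h _ hcon.2))

lemma sgn_not (s : Bool) : sgn (!s) = -sgn s := by
  cases s <;> simp [sgn]

lemma sgn_mul (s t : Bool) : sgn s * sgn t = sgn (s == t) := by
  cases s <;> cases t <;> simp [sgn]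

lemma cont_sgn (v : V) : Continuous fun σ : V → Bool => sgn (σ v) :=
  (continuous_of_discreteTopology (f := sgn)).comp (continuous_apply v)

/-- the configurations which are optimal in `Λ` -/
def Co (K : E → ℝ) (Λ : Finset V) : Set (V → Bool) :=
  {σ | ∀ τ : Λ → Bool, 0 ≤ ∑ᶠ b, df l r K σ (glue Λ τ σ) b}

lemma glue_off {Λ : Finset V} (τ : Λ → Bool) (σ : V → Bool) {v : V} (hv : v ∉ (Λ : Set V)) :
    glue Λ τ σ v = σ v := by
  unfold glue
  rw [dif_neg (by simpa using hv)]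

lemma glue_on {Λ : Finset V} (τ : Λ → Bool) (σ : V → Bool) {v : V} (hv : v ∈ Λ) :
    glue Λ τ σ v = τ ⟨v, hv⟩ := by
  unfold glue
  rw [dif_pos hv]

lemma eq_glue {Λ : Finset V} {σ σ' : V → Bool} (h : ∀ v, v ∉ (Λ : Set V) → σ' v = σ v) :
    σ' = glue Λ (fun v => σ' v) σ := by
  funext v
  by_cases hv : v ∈ Λ
  · rw [glue_on _ _ hv]
  · rw [glue_off _ _ (by simpa using hv), h v (by simpa using hv)]

lemma mem_Co {l r : E → V} {K : E → ℝ} {Λ : Finset V} {σ : V → Bool} (hσ : σ ∈ Co l r K Λ)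
    {σ' : V → Bool} (h : ∀ v, v ∉ (Λ : Set V) → σ' v = σ v) : 0 ≤ ∑ᶠ b, df l r K σ σ' b := by
  have h1 := hσ (fun v => σ' v)
  rwa [← eq_glue h] at h1

lemma closed_Co {l r : E → V} (hLF : LF l r) (K : E → ℝ) (Λ : Finset V) :
    IsClosed (Co l r K Λ) := by
  have h1 : Co l r K Λ = ⋂ τ : Λ → Bool, {σ | 0 ≤ ∑ b ∈ (fin_nb hLF Λ.finite_toSet).toFinset,
      df l r K σ (glue Λ τ σ) b} := by
    ext σ
    unfold Co
    rw [Set.mem_setOf_eq, Set.mem_iInter]
    refine forall_congr' fun τ => ?_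
    rw [Set.mem_setOf_eq, finsum_df hLF K (Λ : Set V) Λ.finite_toSet fun v hv => glue_off τ σ hv]
  rw [h1]
  refine isClosed_iInter fun τ => isClosed_le continuous_const ?_
  refine continuous_finset_sum _ fun b _ => ?_
  have hg : ∀ v, Continuous fun σ : V → Bool => sgn (glue Λ τ σ v) := by
    intro v
    by_cases hv : v ∈ Λ
    · have : (fun σ : V → Bool => sgn (glue Λ τ σ v)) = fun _ => sgn (τ ⟨v, hv⟩) := by
        funext σ
        rw [glue_on τ σ hv]
      rw [this]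
      exact continuous_const
    · have : (fun σ : V → Bool => sgn (glue Λ τ σ v)) = fun σ => sgn (σ v) := by
        funext σ
        rw [glue_off τ σ (by simpa using hv)]
      rw [this]
      exact cont_sgn v
  exact continuous_const.mul (((cont_sgn _).mul (cont_sgn _)).sub ((hg _).mul (hg _)))

lemma nonempty_Co {l r : E → V} (hLF : LF l r) (K : E → ℝ) (Λ : Finset V) :
    (Co l r K Λ).Nonempty := by
  classical
  let S : (Λ → Bool) → ℝ := fun τ => ∑ b ∈ (fin_nb hLF Λ.finite_toSet).toFinset,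
    K b * (sgn (glue Λ τ (fun _ => true) (l b)) * sgn (glue Λ τ (fun _ => true) (r b)))
  obtain ⟨τ₀, hτ₀⟩ := Finite.exists_max S
  refine ⟨glue Λ τ₀ fun _ => true, fun τ => ?_⟩
  rw [finsum_df hLF K (Λ : Set V) Λ.finite_toSet fun v hv => glue_off τ _ hv]
  have h1 : glue Λ τ (glue Λ τ₀ fun _ => true) = glue Λ τ fun _ => true := by
    funext v
    by_cases hv : v ∈ Λ
    · rw [glue_on _ _ hv, glue_on _ _ hv]
    · rw [glue_off _ _ (by simpa using hv), glue_off _ _ (by simpa using hv),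
        glue_off _ _ (by simpa using hv)]
  rw [h1]
  have h2 : ∑ b ∈ (fin_nb hLF Λ.finite_toSet).toFinset,
      df l r K (glue Λ τ₀ fun _ => true) (glue Λ τ fun _ => true) b = S τ₀ - S τ := by
    show _ = ∑ b ∈ (fin_nb hLF Λ.finite_toSet).toFinset, _ -
      ∑ b ∈ (fin_nb hLF Λ.finite_toSet).toFinset, _
    rw [← Finset.sum_sub_distrib]
    refine Finset.sum_congr rfl fun b _ => ?_
    unfold df
    ring
  rw [h2]
  exact sub_nonneg.2 (hτ₀ τ)

theorem t_GEXI : P_GEXI := by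
  intro V E _ l r hLF hbd K hGen
  classical
  -- compactness
  have hdir : Directed (fun A B => A ⊇ B) fun Λ : Finset V => Co l r K Λ := by
    intro Λ Λ'
    refine ⟨Λ ∪ Λ', fun σ hσ τ => ?_, fun σ hσ τ => ?_⟩
    · refine mem_Co hσ fun v hv => glue_off τ σ fun h => hv ?_
      rw [Finset.mem_coe] at h ⊢
      exact Finset.mem_union_left _ h
    · refine mem_Co hσ fun v hv => glue_off τ σ fun h => hv ?_
      rw [Finset.mem_coe] at h ⊢
      exact Finset.mem_union_right _ h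
  obtain ⟨σ, hσ⟩ := IsCompact.nonempty_iInter_of_directed_nonempty_isCompact_isClosed
    (fun Λ : Finset V => Co l r K Λ) hdir (fun Λ => nonempty_Co hLF K Λ)
    (fun Λ => (closed_Co hLF K Λ).isCompact) (fun Λ => closed_Co hLF K Λ)
  rw [Set.mem_iInter] at hσ
  refine ⟨σ, fun σ' hne hfin => ?_⟩
  show 0 < ∑ᶠ b, df l r K σ σ' b
  set D : Set V := {v | σ' v ≠ σ v} with hD
  have hoff : ∀ v, v ∉ D → σ' v = σ v := fun v hv => not_not.1 hv
  have hon : ∀ v, v ∈ D → σ' v = !(σ v) := by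
    intro v hv
    have h1 : σ' v ≠ σ v := hv
    cases h2 : σ' v <;> cases h3 : σ v <;> simp_all
  have hDne : D.Nonempty := by
    obtain ⟨v, hv⟩ := Function.ne_iff.1 hne
    exact ⟨v, hv⟩
  refine lt_of_le_of_ne (mem_Co (hσ hfin.toFinset) fun v hv => hoff v ?_) (Ne.symm ?_)
  · rwa [Set.Finite.coe_toFinset] at hv
  · rw [finsum_df hLF K D hfin hoff]
    set N := (fin_nb hLF hfin).toFinset with hN
    set S : Finset E := N.filter fun b => (l b ∈ D ∧ r b ∉ D) ∨ (l b ∉ D ∧ r b ∈ D) with hS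
    have hterm : ∀ b, df l r K σ σ' b = if (l b ∈ D ∧ r b ∉ D) ∨ (l b ∉ D ∧ r b ∈ D) then
        2 * (sgn (σ (l b) == σ (r b)) * K b) else 0 := by
      intro b
      unfold df
      rw [← sgn_mul]
      by_cases h1 : l b ∈ D
      · by_cases h2 : r b ∈ D
        · rw [if_neg (by tauto), hon _ h1, hon _ h2, sgn_not, sgn_not]
          ring
        · rw [if_pos (Or.inl ⟨h1, h2⟩), hon _ h1, hoff _ h2, sgn_not]
          ring
      · by_cases h2 : r b ∈ D
        · rw [if_pos (Or.inr ⟨h1, h2⟩), hoff _ h1, hon _ h2, sgn_not]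
          ring
        · rw [if_neg (by tauto), hoff _ h1, hoff _ h2]
          ring
    have hsum : ∑ b ∈ N, df l r K σ σ' b = 2 * ∑ b ∈ S, sgn (σ (l b) == σ (r b)) * K b := by
      rw [hS, Finset.mul_sum, Finset.sum_filter]
      exact Finset.sum_congr rfl fun b _ => hterm b
    rw [hsum]
    refine mul_ne_zero two_ne_zero (hGen S (fun b => σ (l b) == σ (r b)) ?_)
    obtain ⟨b, hb⟩ := hbd D hfin hDne
    refine ⟨b, ?_⟩
    rw [hS, Finset.mem_filter]
    refine ⟨?_, hb⟩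
    rw [hN, Set.Finite.mem_toFinset, Set.mem_setOf_eq]
    rcases hb with hb | hb
    · exact Or.inl hb.1
    · exact Or.inr hb.2

end Pool.Agent.Q261.HEA.GEXI
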