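import Pool.Agent.Q291.HEA.Stm2

/-! Finite volume measures: basic facts (project HEA, jobs GCO, GEX, GFL, GUN). -/

set_option autoImplicit false
set_option linter.unusedSectionVars false

namespace Pool.Agent.Q261.HEA

open MeasureTheory Filter Topology Set Pool.Agent.Q291.HEA
open scoped Classical

variable {V E : Type} {l r : E → V}

lemma glue_mem {Λ : Finset V} (η : Λ → Bool) (σ : V → Bool) {v : V} (h : v ∈ Λ) :
    glue Λ η σ v = η ⟨v, h⟩ := dif_pos h

lemma glue_not {Λ : Finset V} (η : Λ → Bool) (σ : V → Bool) {v : V} (h : v ∉ Λ) :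
    glue Λ η σ v = σ v := dif_neg h

lemma glue_congr {Λ : Finset V} (η : Λ → Bool) {a b : V → Bool} (h : ∀ v, v ∉ Λ → a v = b v) :
    glue Λ η a = glue Λ η b := by
  funext v
  by_cases hv : v ∈ Λ
  · rw [glue_mem _ _ hv, glue_mem _ _ hv]
  · rw [glue_not _ _ hv, glue_not _ _ hv, h v hv]

lemma bonds_fin (h : LF l r) (Λ : Finset V) : {b | l b ∈ Λ ∨ r b ∈ Λ}.Finite := by
  have h1 : {b | l b ∈ Λ ∨ r b ∈ Λ} ⊆ ⋃ v ∈ Λ, {b | l b = v ∨ r b = v} := by
    intro b hb
    simp only [Set.mem_iUnion]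
    rcases hb with hb | hb
    · exact ⟨l b, hb, Or.inl rfl⟩
    · exact ⟨r b, hb, Or.inr rfl⟩
  exact (Λ.finite_toSet.biUnion fun v _ => h v).subset h1

lemma energy_eq (h : LF l r) (K : E → ℝ) (Λ : Finset V) (σ : V → Bool) :
    energy l r K Λ σ =
      ∑ b ∈ (bonds_fin h Λ).toFinset, K b * (sgn (σ (l b)) * sgn (σ (r b))) := by
  unfold energy
  rw [finsum_mem_eq_finite_toFinset_sum _ (bonds_fin h Λ)]

lemma energy_diff (h : LF l r) (K : E → ℝ) {Λ Δ : Finset V} (hs : Λ ⊆ Δ) {a b : V → Bool}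
    (hab : ∀ v, v ∉ Λ → a v = b v) :
    energy l r K Δ a - energy l r K Λ a = energy l r K Δ b - energy l r K Λ b := by
  have hsub : {b | l b ∈ Λ ∨ r b ∈ Λ} ⊆ {b | l b ∈ Δ ∨ r b ∈ Δ} := by
    intro b hb
    rcases hb with hb | hb
    · exact Or.inl (hs hb)
    · exact Or.inr (hs hb)
  have key : ∀ s : V → Bool, energy l r K Δ s - energy l r K Λ s =
      ∑ᶠ b ∈ {b | l b ∈ Δ ∨ r b ∈ Δ} \ {b | l b ∈ Λ ∨ r b ∈ Λ},
        K b * (sgn (s (l b)) * sgn (s (r b))) := by
    intro s
    unfold energy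
    rw [← finsum_mem_add_sdiff hsub (bonds_fin h Δ)]
    ring
  rw [key, key]
  refine finsum_mem_congr rfl fun c hc => ?_
  have h1 : l c ∉ Λ := fun h' => hc.2 (Or.inl h')
  have h2 : r c ∉ Λ := fun h' => hc.2 (Or.inr h')
  rw [hab _ h1, hab _ h2]

/-- the partition function -/
noncomputable def Zf (l r : E → V) (K : E → ℝ) (Λ : Finset V) (σ : V → Bool) : ℝ :=
  ∑ η : Λ → Bool, Real.exp (energy l r K Λ (glue Λ η σ))

/-- the weights -/
noncomputable def wf (l r : E → V) (K : E → ℝ) (Λ : Finset V) (η : Λ → Bool) (σ : V → Bool) : ℝ :=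
  Real.exp (energy l r K Λ (glue Λ η σ)) / Zf l r K Λ σ

lemma Zf_pos (K : E → ℝ) (Λ : Finset V) (σ : V → Bool) : 0 < Zf l r K Λ σ :=
  Finset.sum_pos (fun _ _ => Real.exp_pos _) Finset.univ_nonempty

lemma wf_pos (K : E → ℝ) (Λ : Finset V) (η : Λ → Bool) (σ : V → Bool) : 0 < wf l r K Λ η σ :=
  div_pos (Real.exp_pos _) (Zf_pos K Λ σ)

lemma wf_sum (K : E → ℝ) (Λ : Finset V) (σ : V → Bool) : ∑ η, wf l r K Λ η σ = 1 := by
  unfold wf
  rw [← Finset.sum_div]
  exact div_self (Zf_pos K Λ σ).ne'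

lemma fv_eq (K : E → ℝ) (Λ : Finset V) (σ : V → Bool) (A : Set (V → Bool)) :
    finiteVolume l r K Λ σ A =
      ∑ η, wf l r K Λ η σ * A.indicator (fun _ => (1 : ℝ)) (glue Λ η σ) := by
  unfold finiteVolume wf Zf
  rw [Finset.sum_div]
  exact Finset.sum_congr rfl fun η _ => by ring

lemma ind_nonneg (A : Set (V → Bool)) (s : V → Bool) : 0 ≤ A.indicator (fun _ => (1 : ℝ)) s :=
  Set.indicator_nonneg (fun _ _ => zero_le_one) s

lemma ind_le (A : Set (V → Bool)) (s : V → Bool) : A.indicator (fun _ => (1 : ℝ)) s ≤ 1 := by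
  by_cases h : s ∈ A
  · rw [Set.indicator_of_mem h]
  · rw [Set.indicator_of_notMem h]
    exact zero_le_one

lemma fv_nonneg (K : E → ℝ) (Λ : Finset V) (σ : V → Bool) (A : Set (V → Bool)) :
    0 ≤ finiteVolume l r K Λ σ A := by
  rw [fv_eq]
  exact Finset.sum_nonneg fun η _ => mul_nonneg (wf_pos K Λ η σ).le (ind_nonneg A _)

lemma fv_le (K : E → ℝ) (Λ : Finset V) (σ : V → Bool) (A : Set (V → Bool)) :
    finiteVolume l r K Λ σ A ≤ 1 := by
  rw [fv_eq]
  refine le_trans (Finset.sum_le_sum (g := fun η => wf l r K Λ η σ) fun η _ => ?_)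
    (wf_sum (l := l) (r := r) K Λ σ).le
  have := mul_le_mul_of_nonneg_left (ind_le A (glue Λ η σ)) (wf_pos (l := l) (r := r) K Λ η σ).le
  rwa [mul_one] at this

lemma Zf_congr (K : E → ℝ) {Λ : Finset V} {a b : V → Bool} (h : ∀ v, v ∉ Λ → a v = b v) :
    Zf l r K Λ a = Zf l r K Λ b := by
  unfold Zf
  exact Finset.sum_congr rfl fun η _ => by rw [glue_congr η h]

section cons

variable {Λ Δ : Finset V} (hs : Λ ⊆ Δ)

/-- exchange of the values on the smaller set -/
noncomputable def swp (hs : Λ ⊆ Δ) (x : (Δ → Bool) × (Λ → Bool)) : (Δ → Bool) × (Λ → Bool) :=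
  (fun v => if h : (v : V) ∈ Λ then x.2 ⟨v, h⟩ else x.1 v, fun v => x.1 ⟨v, hs v.2⟩)

lemma swp_inv (x : (Δ → Bool) × (Λ → Bool)) : swp hs (swp hs x) = x := by
  refine Prod.ext ?_ ?_
  · funext v
    show (if h : (v : V) ∈ Λ then (swp hs x).2 ⟨v, h⟩ else (swp hs x).1 v) = x.1 v
    by_cases hv : (v : V) ∈ Λ
    · rw [dif_pos hv]
      rfl
    · rw [dif_neg hv]
      show (if h : (v : V) ∈ Λ then x.2 ⟨v, h⟩ else x.1 v) = x.1 v
      rw [dif_neg hv]
  · funext v
    show (if h : (v : V) ∈ Λ then x.2 ⟨v, h⟩ else x.1 ⟨v, hs v.2⟩) = x.2 v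
    rw [dif_pos v.2]

lemma glue_swp1 (η : Δ → Bool) (ζ : Λ → Bool) (σ : V → Bool) :
    glue Δ (swp hs (η, ζ)).1 σ = glue Λ ζ (glue Δ η σ) := by
  funext v
  by_cases hv : v ∈ Λ
  · rw [glue_mem _ _ hv, glue_mem _ _ (hs hv)]
    show (if h : v ∈ Λ then ζ ⟨v, h⟩ else η ⟨v, hs hv⟩) = _
    rw [dif_pos hv]
  · rw [glue_not _ _ hv]
    by_cases hv' : v ∈ Δ
    · rw [glue_mem _ _ hv', glue_mem _ _ hv']
      show (if h : v ∈ Λ then ζ ⟨v, h⟩ else η ⟨v, hv'⟩) = _
      rw [dif_neg hv]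
    · rw [glue_not _ _ hv', glue_not _ _ hv']

lemma glue_swp2 (η : Δ → Bool) (ζ : Λ → Bool) (σ : V → Bool) :
    glue Λ (swp hs (η, ζ)).2 (glue Δ (swp hs (η, ζ)).1 σ) = glue Δ η σ := by
  rw [glue_swp1]
  funext v
  by_cases hv : v ∈ Λ
  · rw [glue_mem _ _ hv, glue_mem _ _ (hs hv)]
    rfl
  · rw [glue_not _ _ hv, glue_not _ _ hv]

include hs in
/-- consistency of the finite volume measures -/
lemma cons (h : LF l r) (K : E → ℝ) (σ : V → Bool) (g : (V → Bool) → ℝ) :
    ∑ η : Δ → Bool, wf l r K Δ η σ * g (glue Δ η σ) =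
      ∑ η : Δ → Bool, wf l r K Δ η σ *
        ∑ ζ : Λ → Bool, wf l r K Λ ζ (glue Δ η σ) * g (glue Λ ζ (glue Δ η σ)) := by
  have h1 : ∑ η : Δ → Bool, wf l r K Δ η σ *
        ∑ ζ : Λ → Bool, wf l r K Λ ζ (glue Δ η σ) * g (glue Λ ζ (glue Δ η σ)) =
      ∑ x : (Δ → Bool) × (Λ → Bool), wf l r K Δ x.1 σ *
        (wf l r K Λ x.2 (glue Δ x.1 σ) * g (glue Λ x.2 (glue Δ x.1 σ))) := by
    rw [Fintype.sum_prod_type]
    exact Finset.sum_congr rfl fun η _ => by rw [Finset.mul_sum]
  have h2 : ∑ η : Δ → Bool, wf l r K Δ η σ * g (glue Δ η σ) =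
      ∑ x : (Δ → Bool) × (Λ → Bool), wf l r K Δ x.1 σ *
        (wf l r K Λ x.2 (glue Δ x.1 σ) * g (glue Δ x.1 σ)) := by
    rw [Fintype.sum_prod_type]
    refine Finset.sum_congr rfl fun η _ => ?_
    show wf l r K Δ η σ * g (glue Δ η σ) =
      ∑ ζ : Λ → Bool, wf l r K Δ η σ * (wf l r K Λ ζ (glue Δ η σ) * g (glue Δ η σ))
    rw [← Finset.mul_sum, ← Finset.sum_mul, wf_sum, one_mul]
  rw [h1, h2]
  refine Fintype.sum_equiv (Function.Involutive.toPerm (swp hs) (swp_inv hs)) _ _ fun x => ?_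
  obtain ⟨η, ζ⟩ := x
  show wf l r K Δ η σ * (wf l r K Λ ζ (glue Δ η σ) * g (glue Δ η σ)) =
    wf l r K Δ (swp hs (η, ζ)).1 σ * (wf l r K Λ (swp hs (η, ζ)).2 (glue Δ (swp hs (η, ζ)).1 σ) *
      g (glue Λ (swp hs (η, ζ)).2 (glue Δ (swp hs (η, ζ)).1 σ)))
  have e2 := glue_swp2 hs η ζ σ
  have e1 := glue_swp1 hs η ζ σ
  unfold wf
  rw [e2, e1]
  have hab : ∀ v, v ∉ Λ → glue Δ η σ v = glue Λ ζ (glue Δ η σ) v := fun v hv =>
    (glue_not _ _ hv).symm
  have h3 := energy_diff h K hs hab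
  rw [Zf_congr K hab]
  have h4 : Real.exp (energy l r K Δ (glue Δ η σ)) * Real.exp (energy l r K Λ (glue Λ ζ (glue Δ η σ)))
      = Real.exp (energy l r K Δ (glue Λ ζ (glue Δ η σ))) *
        Real.exp (energy l r K Λ (glue Δ η σ)) := by
    rw [← Real.exp_add, ← Real.exp_add]
    congr 1
    linarith
  calc Real.exp (energy l r K Δ (glue Δ η σ)) / Zf l r K Δ σ *
      (Real.exp (energy l r K Λ (glue Λ ζ (glue Δ η σ))) / Zf l r K Λ (glue Λ ζ (glue Δ η σ)) *
        g (glue Δ η σ)) = (Real.exp (energy l r K Δ (glue Δ η σ)) *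
        Real.exp (energy l r K Λ (glue Λ ζ (glue Δ η σ)))) / Zf l r K Δ σ /
        Zf l r K Λ (glue Λ ζ (glue Δ η σ)) * g (glue Δ η σ) := by ring
    _ = _ := by
      rw [h4]
      ring

end cons

/-! ### measurability and continuity -/

lemma meas_glue {Λ : Finset V} (η : Λ → Bool) : Measurable (glue Λ η) := by
  refine measurable_pi_lambda _ fun v => ?_
  by_cases hv : v ∈ Λ
  · have : (fun σ : V → Bool => glue Λ η σ v) = fun _ => η ⟨v, hv⟩ := by
      funext σ
      exact glue_mem _ _ hv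
    rw [this]
    exact measurable_const
  · have : (fun σ : V → Bool => glue Λ η σ v) = fun σ => σ v := by
      funext σ
      exact glue_not _ _ hv
    rw [this]
    exact measurable_pi_apply v

lemma cont_glue {Λ : Finset V} (η : Λ → Bool) : Continuous (glue Λ η) := by
  refine continuous_pi fun v => ?_
  by_cases hv : v ∈ Λ
  · have : (fun σ : V → Bool => glue Λ η σ v) = fun _ => η ⟨v, hv⟩ := by
      funext σ
      exact glue_mem _ _ hv
    rw [this]
    exact continuous_const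
  · have : (fun σ : V → Bool => glue Λ η σ v) = fun σ => σ v := by
      funext σ
      exact glue_not _ _ hv
    rw [this]
    exact continuous_apply v

lemma meas_energy (h : LF l r) (K : E → ℝ) (Λ : Finset V) :
    Measurable fun σ : V → Bool => energy l r K Λ σ := by
  simp only [energy_eq h]
  refine Finset.measurable_sum _ fun b _ => ?_
  have hs : Measurable sgn := measurable_of_finite _
  exact measurable_const.mul ((hs.comp (measurable_pi_apply _)).mul
    (hs.comp (measurable_pi_apply _)))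

lemma cont_energy (h : LF l r) (K : E → ℝ) (Λ : Finset V) :
    Continuous fun σ : V → Bool => energy l r K Λ σ := by
  simp only [energy_eq h]
  refine continuous_finsetSum _ fun b _ => ?_
  have hs : Continuous sgn := continuous_of_discreteTopology
  exact continuous_const.mul ((hs.comp (continuous_apply _)).mul
    (hs.comp (continuous_apply _)))

lemma meas_wf (h : LF l r) (K : E → ℝ) (Λ : Finset V) (η : Λ → Bool) :
    Measurable fun σ : V → Bool => wf l r K Λ η σ := by
  unfold wf Zf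
  refine Measurable.div (Real.measurable_exp.comp ((meas_energy h K Λ).comp (meas_glue η))) ?_
  exact Finset.measurable_sum _ fun η' _ =>
    Real.measurable_exp.comp ((meas_energy h K Λ).comp (meas_glue η'))

lemma cont_wf (h : LF l r) (K : E → ℝ) (Λ : Finset V) (η : Λ → Bool) :
    Continuous fun σ : V → Bool => wf l r K Λ η σ := by
  unfold wf
  refine Continuous.div (Real.continuous_exp.comp ((cont_energy h K Λ).comp (cont_glue η))) ?_
    fun σ => (Zf_pos K Λ σ).ne'
  unfold Zf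
  exact continuous_finsetSum _ fun η' _ =>
    Real.continuous_exp.comp ((cont_energy h K Λ).comp (cont_glue η'))

lemma meas_fv (h : LF l r) (K : E → ℝ) (Λ : Finset V) {A : Set (V → Bool)}
    (hA : MeasurableSet A) : Measurable fun σ : V → Bool => finiteVolume l r K Λ σ A := by
  simp only [fv_eq]
  refine Finset.measurable_sum _ fun η _ => (meas_wf h K Λ η).mul ?_
  exact (measurable_const.indicator hA).comp (meas_glue η)

lemma cont_fv (h : LF l r) (K : E → ℝ) (Λ : Finset V) {A : Set (V → Bool)}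
    (hA : IsClopen A) : Continuous fun σ : V → Bool => finiteVolume l r K Λ σ A := by
  simp only [fv_eq]
  refine continuous_finsetSum _ fun η _ => (cont_wf h K Λ η).mul ?_
  have : Continuous (A.indicator (fun _ => (1 : ℝ))) := (IsClopen.continuous_indicator hA
    continuous_const)
  exact this.comp (cont_glue η)

lemma int_fv (h : LF l r) (K : E → ℝ) (Λ : Finset V) {A : Set (V → Bool)}
    (hA : MeasurableSet A) (π : Measure (V → Bool)) [IsFiniteMeasure π] :
    Integrable (fun σ : V → Bool => finiteVolume l r K Λ σ A) π := by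
  refine Integrable.of_bound (meas_fv h K Λ hA).aestronglyMeasurable 1 ?_
  refine Filter.Eventually.of_forall fun σ => ?_
  rw [Real.norm_eq_abs, abs_of_nonneg (fv_nonneg K Λ σ A)]
  exact fv_le K Λ σ A

/-! ### cylinders -/

lemma cyl_clopen {A : Set (V → Bool)} (hA : A ∈ measurableCylinders (fun _ : V => Bool)) :
    IsClopen A := by
  obtain ⟨s, S, hS, rfl⟩ := (mem_measurableCylinders _).1 hA
  have h1 : Continuous (fun (f : V → Bool) (v : s) => f v) :=
    continuous_pi fun v => continuous_apply _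
  exact (isClopen_discrete S).preimage h1

lemma ext_cyl {π π' : Measure (V → Bool)} [IsFiniteMeasure π] [IsFiniteMeasure π']
    (h : ∀ A ∈ measurableCylinders (fun _ : V => Bool), π.real A = π'.real A) : π = π' := by
  have h2 : ∀ A ∈ measurableCylinders (fun _ : V => Bool), π A = π' A := by
    intro A hA
    exact (measureReal_eq_measureReal_iff).1 (h A hA)
  refine ext_of_generate_finite _ generateFrom_measurableCylinders.symm
    (isPiSystem_measurableCylinders) h2 ?_
  exact h2 _ (univ_mem_measurableCylinders _)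

/-! ### the mixture of the finite volume measures -/

/-- the mixture of the finite volume measures -/
noncomputable def mix (l r : E → V) (K : E → ℝ) (Λ : Finset V) (π : Measure (V → Bool)) :
    Measure (V → Bool) :=
  ∑ η : Λ → Bool, (π.withDensity fun σ => ENNReal.ofReal (wf l r K Λ η σ)).map (glue Λ η)

lemma mix_apply (h : LF l r) (K : E → ℝ) (Λ : Finset V) {A : Set (V → Bool)}
    (hA : MeasurableSet A) (π : Measure (V → Bool)) [IsFiniteMeasure π] :
    mix l r K Λ π A = ENNReal.ofReal (∫ σ, finiteVolume l r K Λ σ A ∂π) := by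
  unfold mix
  rw [Measure.finsetSum_apply, ofReal_integral_eq_lintegral_ofReal (int_fv h K Λ hA π)
    (Filter.Eventually.of_forall fun σ => fv_nonneg K Λ σ A)]
  have h1 : ∀ η : Λ → Bool,
      (π.withDensity fun σ => ENNReal.ofReal (wf l r K Λ η σ)).map (glue Λ η) A =
      ∫⁻ σ, ENNReal.ofReal (wf l r K Λ η σ * A.indicator (fun _ => (1 : ℝ)) (glue Λ η σ)) ∂π := by
    intro η
    rw [Measure.map_apply (meas_glue η) hA, withDensity_apply _ ((meas_glue η) hA),
      ← lintegral_indicator ((meas_glue η) hA)]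
    refine lintegral_congr fun σ => ?_
    by_cases hσ : glue Λ η σ ∈ A
    · rw [Set.indicator_of_mem (show σ ∈ glue Λ η ⁻¹' A from hσ), Set.indicator_of_mem hσ, mul_one]
    · rw [Set.indicator_of_notMem (show σ ∉ glue Λ η ⁻¹' A from hσ), Set.indicator_of_notMem hσ,
        mul_zero, ENNReal.ofReal_zero]
  rw [Finset.sum_congr rfl fun η _ => h1 η, ← lintegral_finsetSum]
  · refine lintegral_congr fun σ => ?_
    rw [fv_eq, ENNReal.ofReal_sum_of_nonneg]
    exact fun η _ => mul_nonneg (wf_pos K Λ η σ).le (ind_nonneg A _)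
  · intro η _
    exact ENNReal.measurable_ofReal.comp ((meas_wf h K Λ η).mul
      ((measurable_const.indicator hA).comp (meas_glue η)))

lemma mix_real (h : LF l r) (K : E → ℝ) (Λ : Finset V) {A : Set (V → Bool)}
    (hA : MeasurableSet A) (π : Measure (V → Bool)) [IsFiniteMeasure π] :
    (mix l r K Λ π).real A = ∫ σ, finiteVolume l r K Λ σ A ∂π := by
  rw [measureReal_def, mix_apply h K Λ hA, ENNReal.toReal_ofReal]
  exact integral_nonneg fun σ => fv_nonneg K Λ σ A

lemma mix_fin (h : LF l r) (K : E → ℝ) (Λ : Finset V) (π : Measure (V → Bool))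
    [IsFiniteMeasure π] : IsFiniteMeasure (mix l r K Λ π) :=
  ⟨by rw [mix_apply h K Λ MeasurableSet.univ]; exact ENNReal.ofReal_lt_top⟩

/-- the DLR equations for cylinders imply those for all measurable sets -/
lemma dlr_of_cyl (h : LF l r) (K : E → ℝ) (Λ : Finset V) (π : Measure (V → Bool))
    [IsFiniteMeasure π] (hc : ∀ A ∈ measurableCylinders (fun _ : V => Bool),
      π.real A = ∫ σ, finiteVolume l r K Λ σ A ∂π) {A : Set (V → Bool)} (hA : MeasurableSet A) :
    π.real A = ∫ σ, finiteVolume l r K Λ σ A ∂π := by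
  have := mix_fin h K Λ π
  have h1 : π = mix l r K Λ π := ext_cyl fun A hA => by
    rw [mix_real h K Λ (MeasurableSet.of_mem_measurableCylinders hA) π]
    exact hc A hA
  rw [← mix_real h K Λ hA π, ← h1]

end Pool.Agent.Q261.HEA
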