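import Mathlib
import Pool.Agent.Q291.HEA.Stm3
import Pool.Agent.Q66.HEA.Lawk

/-!
# Project HEA, job IO: infinitely many levels at which the own half is the stronger one
-/

set_option autoImplicit false

namespace Pool.Agent.Q261.HEA.IO

open MeasureTheory Filter Topology Set ProbabilityTheory Pool.Agent.Q291.HEA Pool.Agent.Q66.HEA

/-- two coordinates of a product measure -/
theorem pair_lawG {ι : Type} {S : Type} [MeasurableSpace S] (μ : Measure S)
    [IsProbabilityMeasure μ] {a b : ι} (hab : a ≠ b) :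
    (Measure.infinitePi fun _ : ι => μ).map (fun x => (x a, x b)) = μ.prod μ := by
  have h1 := (ProbabilityTheory.iIndepFun_infinitePi (P := fun _ : ι => μ)
    (X := fun _ ω => ω) (fun _ => measurable_id)).indepFun hab
  rw [ProbabilityTheory.indepFun_iff_map_prod_eq_prod_map_map
    (measurable_pi_apply a).aemeasurable (measurable_pi_apply b).aemeasurable] at h1
  have e1 := Measure.infinitePi_map_eval (fun _ : ι => μ) a
  have e2 := Measure.infinitePi_map_eval (fun _ : ι => μ) b
  rw [e1, e2] at h1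
  exact h1

variable {φ : ℝ → ℝ → ℝ}

theorem ser_probG (hφ : Measurable fun z : ℝ × ℝ => φ z.1 z.2) (μ : Measure ℝ)
    [IsProbabilityMeasure μ] : IsProbabilityMeasure (ser φ μ) :=
  Measure.isProbabilityMeasure_map hφ.aemeasurable

theorem ser_symG (hφ : Measurable fun z : ℝ × ℝ => φ z.1 z.2) (hodd : ∀ x y, φ (-x) y = -φ x y)
    (μ : Measure ℝ) [IsProbabilityMeasure μ] (h : Pool.Agent.Q291.HEA.Sym μ) :
    Pool.Agent.Q291.HEA.Sym (ser φ μ) := by
  unfold Pool.Agent.Q291.HEA.Sym at h ⊢
  unfold ser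
  rw [Measure.map_map measurable_neg hφ]
  have e : ((fun x : ℝ => -x) ∘ fun z : ℝ × ℝ => φ z.1 z.2) =
      (fun z : ℝ × ℝ => φ z.1 z.2) ∘ (Prod.map (fun x : ℝ => -x) id) := by
    funext z
    simp [hodd]
  rw [e, ← Measure.map_map hφ (measurable_neg.prodMap measurable_id),
    ← Measure.map_prod_map _ _ measurable_neg measurable_id, h, Measure.map_id]

/-- the series couplings of the branches -/
def br (φ : ℝ → ℝ → ℝ) (B : ℕ) (f : Pos B → ℝ) : Fin B → ℝ :=
  fun i => φ (f (i, false)) (f (i, true))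

theorem meas_br (hφ : Measurable fun z : ℝ × ℝ => φ z.1 z.2) (B : ℕ) : Measurable (br φ B) := by
  refine measurable_pi_lambda _ fun i => ?_
  have h : Measurable (fun f : Pos B → ℝ => (f (i, false), f (i, true))) :=
    (measurable_pi_apply (i, false)).prodMk (measurable_pi_apply (i, true))
  exact hφ.comp h

theorem law_br (hφ : Measurable fun z : ℝ × ℝ => φ z.1 z.2) (B : ℕ) (μ : Measure ℝ)
    [IsProbabilityMeasure μ] :
    (Measure.infinitePi fun _ : Pos B => μ).map (br φ B) = Measure.pi fun _ : Fin B => ser φ μ := by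
  have hsp := ser_probG hφ μ
  have h1 := Measure.infinitePi_map_curry (fun (_ : Fin B) (_ : Bool) => μ)
  have hp2 : Measurable (fun x : Bool → ℝ => (x false, x true)) :=
    (measurable_pi_apply false).prodMk (measurable_pi_apply true)
  have hh : Measurable (fun x : Bool → ℝ => φ (x false) (x true)) := hφ.comp hp2
  have h2 := Measure.infinitePi_map_pi (fun _ : Fin B => Measure.infinitePi fun _ : Bool => μ)
    (f := fun _ x => φ (x false) (x true)) (fun _ => hh)
  have h3 : (Measure.infinitePi fun _ : Bool => μ).map (fun x : Bool → ℝ => φ (x false) (x true)) =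
      ser φ μ := by
    have e : (fun x : Bool → ℝ => φ (x false) (x true)) =
        (fun z : ℝ × ℝ => φ z.1 z.2) ∘ fun x : Bool → ℝ => (x false, x true) := rfl
    rw [e, ← Measure.map_map hφ hp2, pair_lawG μ (by decide : false ≠ true)]
    rfl
  have e : br φ B = (fun (x : Fin B → Bool → ℝ) i => φ (x i false) (x i true)) ∘
        (MeasurableEquiv.curry (Fin B) Bool ℝ) := by
    funext f
    rfl
  have hm2 : Measurable (fun (x : Fin B → Bool → ℝ) (i : Fin B) => φ (x i false) (x i true)) :=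
    measurable_pi_lambda _ fun i => hh.comp (measurable_pi_apply i)
  rw [e, ← Measure.map_map hm2 (MeasurableEquiv.measurable _), h1, h2]
  simp only [h3]
  rw [Measure.infinitePi_eq_pi]

/-- the sum over the branches -/
noncomputable def gs (φ : ℝ → ℝ → ℝ) (B : ℕ) (f : Pos B → ℝ) : ℝ := ∑ i : Fin B, br φ B f i

/-- the sum over the branches other than the branch `0` -/
noncomputable def rs (φ : ℝ → ℝ → ℝ) (B : ℕ) (f : Pos (B + 1) → ℝ) : ℝ :=
  ∑ i : Fin B, br φ (B + 1) f i.succ

theorem meas_gs (hφ : Measurable fun z : ℝ × ℝ => φ z.1 z.2) (B : ℕ) : Measurable (gs φ B) :=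
  Finset.measurable_sum _ fun i _ => (measurable_pi_apply i).comp (meas_br hφ B)

theorem meas_rs (hφ : Measurable fun z : ℝ × ℝ => φ z.1 z.2) (B : ℕ) : Measurable (rs φ B) :=
  Finset.measurable_sum _ fun i _ => (measurable_pi_apply i.succ).comp (meas_br hφ (B + 1))

theorem law_gs (hφ : Measurable fun z : ℝ × ℝ => φ z.1 z.2) (B : ℕ) (μ : Measure ℝ)
    [IsProbabilityMeasure μ] :
    (Measure.infinitePi fun _ : Pos B => μ).map (gs φ B) = par (ser φ μ) B := by
  have hsp := ser_probG hφ μ
  have hm1 : Measurable (fun x : Fin B → ℝ => ∑ i, x i) := by fun_prop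
  have e : gs φ B = (fun x : Fin B → ℝ => ∑ i, x i) ∘ br φ B := rfl
  rw [e, ← Measure.map_map hm1 (meas_br hφ B), law_br hφ]
  exact sum_law _ _

theorem law_rs (hφ : Measurable fun z : ℝ × ℝ => φ z.1 z.2) (B : ℕ) (μ : Measure ℝ)
    [IsProbabilityMeasure μ] :
    (Measure.infinitePi fun _ : Pos (B + 1) => μ).map (rs φ B) = par (ser φ μ) B := by
  have hsp := ser_probG hφ μ
  have hm1 : Measurable (fun x : Fin B → ℝ => ∑ i, x i) := by fun_prop
  have h1 := measurePreserving_piFinSuccAbove (fun _ : Fin (B + 1) => ser φ μ) 0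
  have e : rs φ B = (fun x : Fin B → ℝ => ∑ i, x i) ∘ Prod.snd ∘
      (MeasurableEquiv.piFinSuccAbove (fun _ : Fin (B + 1) => ℝ) 0) ∘ br φ (B + 1) := by
    funext f
    rfl
  rw [e, ← Measure.map_map hm1 (measurable_snd.comp ((MeasurableEquiv.measurable _).comp
    (meas_br hφ (B + 1)))), ← Measure.map_map measurable_snd ((MeasurableEquiv.measurable _).comp
    (meas_br hφ (B + 1))), ← Measure.map_map (MeasurableEquiv.measurable _) (meas_br hφ (B + 1)),
    law_br hφ, h1.map_eq, Measure.map_snd_prod, measure_univ, one_smul]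
  exact sum_law _ _

section dec

variable {B : ℕ} [NeZero B] {e : ℕ → Bool}

/-- the couplings of the cells of level one -/
def cu (K : Bond B e → ℝ) (ω : Bond B (sh e)) : Pos B → ℝ := fun p => K (consB p ω)

theorem law_cu (μ : Measure ℝ) [IsProbabilityMeasure μ] :
    Measurable (cu : (Bond B e → ℝ) → (Bond B (sh e) → Pos B → ℝ)) ∧
    (Measure.infinitePi fun _ : Bond B e => μ).map cu =
      Measure.infinitePi fun _ : Bond B (sh e) => Measure.infinitePi fun _ : Pos B => μ := by
  have h1 := reindex μ (Psi B e)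
  have h2 := Measure.infinitePi_map_curry (fun (_ : Bond B (sh e)) (_ : Pos B) => μ)
  have hm1 : Measurable (fun (x : Bond B e → ℝ) (a : Bond B (sh e) × Pos B) => x (Psi B e a)) :=
    measurable_pi_lambda _ fun a => measurable_pi_apply _
  have ed : (cu : (Bond B e → ℝ) → (Bond B (sh e) → Pos B → ℝ)) =
      (MeasurableEquiv.curry (Bond B (sh e)) (Pos B) ℝ) ∘
      (fun (x : Bond B e → ℝ) (a : Bond B (sh e) × Pos B) => x (Psi B e a)) := by
    funext K
    rfl
  refine ⟨?_, ?_⟩
  · rw [ed]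
    exact (MeasurableEquiv.measurable _).comp hm1
  · rw [ed, ← Measure.map_map (MeasurableEquiv.measurable _) hm1, h1, h2]

/-- decimated couplings -/
noncomputable def decG (φ : ℝ → ℝ → ℝ) (K : Bond B e → ℝ) (ω : Bond B (sh e)) : ℝ :=
  gs φ B (cu K ω)

theorem law_decG (hφ : Measurable fun z : ℝ × ℝ => φ z.1 z.2) (μ : Measure ℝ)
    [IsProbabilityMeasure μ] :
    Measurable (decG φ : (Bond B e → ℝ) → (Bond B (sh e) → ℝ)) ∧
    (Measure.infinitePi fun _ : Bond B e => μ).map (decG φ) =
      Measure.infinitePi fun _ : Bond B (sh e) => par (ser φ μ) B := by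
  obtain ⟨h1, h2⟩ := law_cu (B := B) (e := e) μ
  have h3 := Measure.infinitePi_map_pi (fun _ : Bond B (sh e) =>
    Measure.infinitePi fun _ : Pos B => μ) (f := fun _ => gs φ B) (fun _ => meas_gs hφ B)
  have hm2 : Measurable (fun (x : Bond B (sh e) → Pos B → ℝ) (i : Bond B (sh e)) =>
      gs φ B (x i)) := measurable_pi_lambda _ fun i => (meas_gs hφ B).comp (measurable_pi_apply i)
  have ed : (decG φ : (Bond B e → ℝ) → (Bond B (sh e) → ℝ)) =
      (fun (x : Bond B (sh e) → Pos B → ℝ) (i : Bond B (sh e)) => gs φ B (x i)) ∘ cu := by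
    funext K
    rfl
  refine ⟨?_, ?_⟩
  · rw [ed]
    exact hm2.comp h1
  · rw [ed, ← Measure.map_map hm2 h1, h2, h3]
    simp only [law_gs hφ]

theorem effG_dec (K : Bond B e → ℝ) (n : ℕ) : ∀ ω : Bond B e,
    effG φ K (n + 1) ω = effG φ (decG φ K) n (tailB ω) := by
  induction n with
  | zero =>
    intro ω
    show ∑ i : Fin B, φ (K (upd ω 0 (i, false))) (K (upd ω 0 (i, true))) =
      ∑ i : Fin B, φ (K (consB (i, false) (tailB ω))) (K (consB (i, true) (tailB ω)))
    simp only [cons_tail]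
  | succ n ih =>
    intro ω
    show ∑ i : Fin B, φ (effG φ K (n + 1) (upd ω (n + 1) (i, false)))
        (effG φ K (n + 1) (upd ω (n + 1) (i, true))) =
      ∑ i : Fin B, φ (effG φ (decG φ K) n (upd (tailB ω) n (i, false)))
        (effG φ (decG φ K) n (upd (tailB ω) n (i, true)))
    simp only [ih, tail_upd]

theorem tail_orig : tailB (orig : Bond B e) = orig := rfl

theorem tail_sib (n : ℕ) : tailB (sib (n + 1) : Bond B e) = sib n := by
  unfold sib
  rw [tail_upd]
  rfl

end dec

section xi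

variable {B : ℕ} [NeZero (B + 1)]

/-- the pair of the sum of the branches other than `0` and the coupling of the next half -/
noncomputable def xi (φ : ℝ → ℝ → ℝ) {e : ℕ → Bool} (n : ℕ) (K : Bond (B + 1) e → ℝ) : ℝ × ℝ :=
  (∑ i : Fin B, φ (effG φ K n (upd orig n (i.succ, false))) (effG φ K n (upd orig n (i.succ, true))),
    effG φ K (n + 1) (sib (n + 1)))

theorem xi_succ {e : ℕ → Bool} (n : ℕ) (K : Bond (B + 1) e → ℝ) :
    xi φ (n + 1) K = xi φ n (decG φ K) := by
  have h1 : ∑ i : Fin B, φ (effG φ K (n + 1) (upd orig (n + 1) (i.succ, false)))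
      (effG φ K (n + 1) (upd orig (n + 1) (i.succ, true))) =
      ∑ i : Fin B, φ (effG φ (decG φ K) n (upd orig n (i.succ, false)))
      (effG φ (decG φ K) n (upd orig n (i.succ, true))) := by
    refine Finset.sum_congr rfl fun i _ => ?_
    rw [effG_dec K n, effG_dec K n, tail_upd, tail_upd, tail_orig]
  unfold xi
  rw [effG_dec K (n + 1), tail_sib, h1]

theorem xi_zero {e : ℕ → Bool} (K : Bond (B + 1) e → ℝ) :
    xi φ 0 K = (rs φ B (cu K (tailB orig)), gs φ (B + 1) (cu K (tailB (sib 1)))) := by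
  unfold xi
  refine Prod.ext ?_ ?_
  · show ∑ i : Fin B, φ (K (upd orig 0 (i.succ, false))) (K (upd orig 0 (i.succ, true))) =
      ∑ i : Fin B, φ (K (consB (i.succ, false) (tailB orig))) (K (consB (i.succ, true) (tailB orig)))
    simp only [cons_tail]
  · show effG φ K (0 + 1) (sib (0 + 1)) = _
    rw [effG_dec]
    rfl

theorem law_xi (hφ : Measurable fun z : ℝ × ℝ => φ z.1 z.2) (hodd : ∀ x y, φ (-x) y = -φ x y)
    (n : ℕ) : ∀ (e : ℕ → Bool) (μ : Measure ℝ) [IsProbabilityMeasure μ],
    Pool.Agent.Q291.HEA.Sym μ → Measurable (fun K : Bond (B + 1) e → ℝ => xi φ n K) ∧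
    ∃ ν : Measure ℝ, IsProbabilityMeasure ν ∧ Pool.Agent.Q291.HEA.Sym ν ∧
      (Measure.infinitePi fun _ : Bond (B + 1) e => μ).map (fun K => xi φ n K) =
        (par ν B).prod (par ν (B + 1)) := by
  induction n with
  | zero =>
    intro e μ _ hs
    have hsp := ser_probG hφ μ
    obtain ⟨m1, m2⟩ := law_cu (B := B + 1) (e := e) μ
    have hab : (tailB (orig : Bond (B + 1) e)) ≠ tailB (sib 1) := by
      intro h
      have h1 := congrArg (fun b : Bond (B + 1) (sh e) => (b.1 0).2) h
      simp [tailB, orig, sib, upd] at h1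
    have hmp : Measurable (fun x : Bond (B + 1) (sh e) → Pos (B + 1) → ℝ =>
        (x (tailB (orig : Bond (B + 1) e)), x (tailB (sib 1)))) :=
      (measurable_pi_apply _).prodMk (measurable_pi_apply _)
    have hm3 : Measurable (Prod.map (rs φ B) (gs φ (B + 1))) :=
      (meas_rs hφ B).prodMap (meas_gs hφ (B + 1))
    have ee : (fun K : Bond (B + 1) e → ℝ => xi φ 0 K) = Prod.map (rs φ B) (gs φ (B + 1)) ∘
        (fun x : Bond (B + 1) (sh e) → Pos (B + 1) → ℝ =>
          (x (tailB (orig : Bond (B + 1) e)), x (tailB (sib 1)))) ∘ cu := by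
      funext K
      exact xi_zero K
    refine ⟨?_, ser φ μ, hsp, ser_symG hφ hodd μ hs, ?_⟩
    · rw [ee]
      exact hm3.comp (hmp.comp m1)
    · rw [ee, ← Measure.map_map hm3 (hmp.comp m1), ← Measure.map_map hmp m1, m2,
        pair_lawG _ hab, ← Measure.map_prod_map _ _ (meas_rs hφ B) (meas_gs hφ (B + 1)),
        law_rs hφ, law_gs hφ]
  | succ n ih =>
    intro e μ _ hs
    have hsp := ser_probG hφ μ
    have hp : IsProbabilityMeasure (par (ser φ μ) (B + 1)) := par_prob _ _
    obtain ⟨m1, m2⟩ := law_decG (B := B + 1) (e := e) hφ μ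
    obtain ⟨m3, ν, h1, h2, h3⟩ := ih (sh e) (par (ser φ μ) (B + 1))
      (par_sym _ (ser_symG hφ hodd μ hs) _)
    have e1 : (fun K : Bond (B + 1) e → ℝ => xi φ (n + 1) K) = (fun K => xi φ n K) ∘ decG φ := by
      funext K
      exact xi_succ n K
    rw [e1]
    refine ⟨m3.comp m1, ν, h1, h2, ?_⟩
    rw [← Measure.map_map m3 m1, m2, h3]

end xi

section sigma

variable {B : ℕ} [NeZero B] {e : ℕ → Bool}

/-- the sigma algebra of some couplings -/
@[instance_reducible]
def SG (S : Set (Bond B e)) : MeasurableSpace (Bond B e → ℝ) :=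
  ⨆ b ∈ S, MeasurableSpace.comap (fun K : Bond B e → ℝ => K b) inferInstance

theorem SG_mono {S T : Set (Bond B e)} (h : S ⊆ T) : SG S ≤ SG T :=
  biSup_mono fun _ hb => h hb

theorem SG_le (S : Set (Bond B e)) : SG S ≤ MeasurableSpace.pi :=
  iSup₂_le fun b _ => measurable_iff_comap_le.1 (measurable_pi_apply b)

theorem meas_coord {S : Set (Bond B e)} {b : Bond B e} (hb : b ∈ S) :
    Measurable[SG S] (fun K : Bond B e → ℝ => K b) := by
  rw [measurable_iff_comap_le]
  exact le_iSup₂_of_le b hb le_rfl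

theorem meas_mono {S T : Set (Bond B e)} (h : S ⊆ T) {α : Type} [MeasurableSpace α]
    {f : (Bond B e → ℝ) → α} (hf : Measurable[SG S] f) : Measurable[SG T] f :=
  hf.mono (SG_mono h) le_rfl

theorem cellb_upd (n : ℕ) (ω : Bond B e) (p : Pos B) : cellb n (upd ω n p) ⊆ cellb (n + 1) ω := by
  intro b hb k hk
  rw [hb k (by omega)]
  show Function.update ω.1 n p k = ω.1 k
  rw [Function.update_of_ne (by omega)]

theorem meas_effG (hφ : Measurable fun z : ℝ × ℝ => φ z.1 z.2) (n : ℕ) : ∀ ω : Bond B e,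
    Measurable[SG (cellb n ω)] (fun K : Bond B e → ℝ => effG φ K n ω) := by
  induction n with
  | zero =>
    intro ω
    exact meas_coord (b := ω) fun k _ => rfl
  | succ n ih =>
    intro ω
    refine Finset.measurable_sum _ fun i _ => ?_
    exact hφ.comp ((meas_mono (cellb_upd n ω _) (ih _)).prodMk
      (meas_mono (cellb_upd n ω _) (ih _)))

theorem indep_SG (μ : Measure ℝ) [IsProbabilityMeasure μ] {S T : Set (Bond B e)}
    (h : Disjoint S T) : Indep (SG S) (SG T) (Measure.infinitePi fun _ : Bond B e => μ) := by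
  have h1 := ProbabilityTheory.iIndepFun_infinitePi (P := fun _ : Bond B e => μ)
    (X := fun _ ω => ω) (fun _ => measurable_id)
  exact indep_iSup_of_disjoint (fun b => measurable_iff_comap_le.1 (measurable_pi_apply b)) h1 h

/-- the bonds of branch `0` of the cell of level `n + 1` around the origin -/
def Sn (B : ℕ) [NeZero B] (e : ℕ → Bool) (n : ℕ) : Set (Bond B e) :=
  {b | (b.1 n).1 = 0 ∧ ∀ k, n + 1 ≤ k → b.1 k = (0, e k)}

/-- the bonds of the other branches, and of the next half -/
def Tn (B : ℕ) [NeZero B] (e : ℕ → Bool) (n : ℕ) : Set (Bond B e) :=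
  {b | (b.1 n).1 ≠ 0 ∧ ∀ k, n + 1 ≤ k → b.1 k = (0, e k)} ∪ cellb (n + 1) (sib (n + 1))

theorem sib_val (n : ℕ) : (sib n : Bond B e).1 n = (0, !(e n)) := by
  show Function.update _ n _ n = _
  rw [Function.update_self]

theorem sib_val' (n k : ℕ) (h : k ≠ n) : (sib n : Bond B e).1 k = (0, e k) := by
  show Function.update _ n _ k = _
  rw [Function.update_of_ne h]
  rfl

theorem disj (n : ℕ) : Disjoint (Sn B e n) (Tn B e n) := by
  rw [Set.disjoint_left]
  rintro b ⟨h1, h2⟩ (⟨h3, -⟩ | h3)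
  · exact h3 h1
  · have h4 := h3 (n + 1) le_rfl
    rw [h2 (n + 1) le_rfl, sib_val] at h4
    have h5 := congrArg Prod.snd h4
    simp at h5

theorem Sn_mono (n : ℕ) : Sn B e n ⊆ Sn B e (n + 1) := by
  rintro b ⟨_, h2⟩
  refine ⟨?_, fun k hk => h2 k (by omega)⟩
  rw [h2 (n + 1) le_rfl]

theorem Tn_sub (n : ℕ) : Tn B e n ⊆ Sn B e (n + 1) := by
  rintro b (⟨_, h2⟩ | h3)
  · refine ⟨?_, fun k hk => h2 k (by omega)⟩
    rw [h2 (n + 1) le_rfl]
  · refine ⟨?_, fun k hk => ?_⟩
    · rw [h3 (n + 1) le_rfl, sib_val]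
    · rw [h3 k (by omega), sib_val' _ _ (by omega)]

theorem cell_sub (n : ℕ) (p : Pos B) (b : Bond B e) (hb : b ∈ cellb n (upd orig n p)) :
    b.1 n = p ∧ ∀ k, n + 1 ≤ k → b.1 k = (0, e k) := by
  refine ⟨?_, fun k hk => ?_⟩
  · rw [hb n le_rfl]
    show Function.update _ n _ n = _
    rw [Function.update_self]
  · rw [hb k (by omega)]
    show Function.update _ n _ k = _
    rw [Function.update_of_ne (by omega)]
    rfl

end sigma

theorem t_IO : P_MARK → P_CB → P_IO := by
  intro hMARK hCB B hB0 e hAlt hB φ hφ hodd hodd' μ _ hs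
  obtain ⟨B', rfl⟩ : ∃ B', B = B' + 1 := ⟨B - 1, by omega⟩
  obtain ⟨c, hc, hCB⟩ := hCB (B' + 1) hB
  have hlaw := fun n => law_xi (B := B') (φ := φ) hφ hodd n e μ hs
  have hφ' : Measurable fun z : ℝ × ℝ => φ z.1 z.2 := hφ
  have hz : ∀ n, Measurable[SG (Sn (B' + 1) e n)] (fun K : Bond (B' + 1) e → ℝ =>
      φ (effG φ K n (upd orig n (0, false))) (effG φ K n (upd orig n (0, true)))) := by
    intro n
    have h : ∀ s, cellb n (upd (orig : Bond (B' + 1) e) n (0, s)) ⊆ Sn (B' + 1) e n := by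
      intro s b hb
      obtain ⟨h1, h2⟩ := cell_sub n _ b hb
      exact ⟨by rw [h1], h2⟩
    exact hφ'.comp ((meas_mono (h false) (meas_effG hφ' n _)).prodMk
      (meas_mono (h true) (meas_effG hφ' n _)))
  have hT : ∀ n, Measurable[SG (Tn (B' + 1) e n)]
      (fun K : Bond (B' + 1) e → ℝ => xi φ n K) := by
    intro n
    have h : ∀ (i : Fin B') s, cellb n (upd (orig : Bond (B' + 1) e) n (i.succ, s)) ⊆
        Tn (B' + 1) e n := by
      intro i s b hb
      obtain ⟨h1, h2⟩ := cell_sub n _ b hb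
      refine Or.inl ⟨?_, h2⟩
      rw [h1]
      exact Fin.succ_ne_zero i
    have h1 : Measurable[SG (Tn (B' + 1) e n)] (fun K : Bond (B' + 1) e → ℝ =>
        ∑ i : Fin B', φ (effG φ K n (upd orig n (i.succ, false)))
          (effG φ K n (upd orig n (i.succ, true)))) := by
      refine Finset.measurable_sum _ fun i _ => ?_
      exact hφ'.comp ((meas_mono (h i false) (meas_effG hφ' n _)).prodMk
          (meas_mono (h i true) (meas_effG hφ' n _)))
    exact h1.prodMk (meas_mono (fun b hb => Or.inr hb) (meas_effG hφ' (n + 1) _))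
  have key := hMARK (Measure.infinitePi fun _ : Bond (B' + 1) e => μ)
    (fun n => SG (Sn (B' + 1) e n))
    (fun n K => φ (effG φ K n (upd orig n (0, false))) (effG φ K n (upd orig n (0, true))))
    (fun n K => xi φ n K) (fun _ => {q : ℝ × (ℝ × ℝ) | |q.2.2| ≤ |q.1 + q.2.1|}) c hc
    (monotone_nat_of_le_succ fun n => SG_mono (Sn_mono n)) (fun n => SG_le _)
    hz (fun n => meas_mono (Tn_sub n) (hT n))
    (fun n => indep_of_indep_of_le_right (indep_SG μ (disj n)) (measurable_iff_comap_le.1 (hT n)))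
    (fun n => measurableSet_le (measurable_snd.comp measurable_snd).abs
      (measurable_fst.add (measurable_fst.comp measurable_snd)).abs)
    (fun n s => by
      obtain ⟨h1, ν, h2, h3, h4⟩ := hlaw n
      rw [h4]
      exact hCB ν h3 s)
  filter_upwards [key] with K hK
  refine (tendsto_add_atTop_nat 1).frequently (hK.mono fun n hn => ?_)
  have h1 : effG φ K (n + 1) orig =
      φ (effG φ K n (upd orig n (0, false))) (effG φ K n (upd orig n (0, true))) +
      (xi φ n K).1 := by
    have h2 : effG φ K (n + 1) orig = ∑ i : Fin (B' + 1),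
        φ (effG φ K n (upd orig n (i, false))) (effG φ K n (upd orig n (i, true))) := rfl
    rw [h2, Fin.sum_univ_succ]
    rfl
  rw [h1]
  exact hn

end Pool.Agent.Q261.HEA.IO
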